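import Pool.Agent.T9h72.EX.Spec

set_option autoImplicit false

open Complex Filter Topology Metric Set
open Pool.Agent.Helper797.Bs Pool.Agent.K7.H38.MD

namespace Pool.Agent.T9h41.EX

open Pool.Agent.T9h72.EX

/-- `B` is a complex vector space -/
theorem add : S_ADD := by
  rintro f ⟨⟨M, hM⟩, F, hF, hfF⟩ g ⟨⟨N, hN⟩, G, hG, hgG⟩ c
  refine ⟨⟨M + ‖c‖ * N, fun p => ?_⟩, fun z => F z + c * G z, ⟨?_, ?_⟩, ?_⟩
  · refine (norm_add_le _ _).trans ?_
    rw [norm_mul]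
    have h1 := hM p
    have h2 := mul_le_mul_of_nonneg_left (hN p) (norm_nonneg c)
    linarith
  · intro z hz
    exact (hF.1 z hz).add (analyticAt_const.mul (hG.1 z hz))
  · intro ε hε
    obtain ⟨C, hC⟩ := hF.2 ε hε
    obtain ⟨C', hC'⟩ := hG.2 ε hε
    refine ⟨C + ‖c‖ * C', fun z => ?_⟩
    refine (norm_add_le _ _).trans ?_
    rw [norm_mul]
    have h1 := hC z
    have h2 := mul_le_mul_of_nonneg_left (hC' z) (norm_nonneg c)
    calc ‖F z‖ + ‖c‖ * ‖G z‖ ≤ _ := add_le_add h1 h2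
      _ = _ := by ring
  · intro x y
    change f (x, y) + c * g (x, y) = F (x, y) + c * G (x, y)
    rw [hfF, hgG]

end Pool.Agent.T9h41.EX
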