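import Pool.Agent.T9h72.EX.Spec

set_option autoImplicit false

open Complex Filter Topology Metric Set
open Pool.Agent.Helper797.Bs Pool.Agent.K7.H38.MD

namespace Pool.Agent.T9h41.EX

open Pool.Agent.T9h72.EX

/-- `w ↦ ev snc (l² w)` -/
noncomputable def gs (l : ℝ) (w : ℂ) : ℂ := ev snc ((l : ℂ) ^ 2 * w)

lemma gs_diff (l : ℝ) : Differentiable ℂ (gs l) := evsnc_diff.comp (by fun_prop)

lemma snc_ofReal (r : ℝ) : snc (r : ℂ) = ((Real.sinc r : ℝ) : ℂ) := by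
  rcases eq_or_ne r 0 with rfl | h
  · rw [Complex.ofReal_zero, snc_zero, Real.sinc_zero, Complex.ofReal_one]
  · rw [snc_ne (by exact_mod_cast h), Real.sinc_of_ne_zero h]
    push_cast
    rfl

lemma gs_real (l x y : ℝ) : gs l ((x : ℂ) ^ 2 + (y : ℂ) ^ 2) =
    ((Real.sinc (l * √(x ^ 2 + y ^ 2)) : ℝ) : ℂ) := by
  unfold gs
  have h : ((l * √(x ^ 2 + y ^ 2) : ℝ) : ℂ) ^ 2 = (l : ℂ) ^ 2 * ((x : ℂ) ^ 2 + (y : ℂ) ^ 2) := by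
    rw [← Complex.ofReal_pow, mul_pow, Real.sq_sqrt (by positivity)]
    push_cast
    ring
  rw [ev_eq snc_neg h, snc_ofReal]

lemma gs_growth : ∃ K : ℝ, 0 ≤ K ∧ ∀ l : ℝ, 0 < l → ∀ z1 z2 : ℂ,
    ‖gs l (z1 ^ 2 + z2 ^ 2)‖ ≤ K * Real.exp (l * √(z1.im ^ 2 + z2.im ^ 2)) := by
  obtain ⟨K, hK, hb⟩ := snc_bound
  refine ⟨K, hK, fun l hl z1 z2 => ?_⟩
  have h := ev_growth hb hK 0 ((l : ℂ) * z1) ((l : ℂ) * z2)
  have e1 : ((l : ℂ) * z1) ^ 2 + ((l : ℂ) * z2) ^ 2 + ((0 : ℝ) : ℂ) ^ 2 =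
      (l : ℂ) ^ 2 * (z1 ^ 2 + z2 ^ 2) := by
    rw [Complex.ofReal_zero]; ring
  have e2 : √(((l : ℂ) * z1).im ^ 2 + ((l : ℂ) * z2).im ^ 2) = l * √(z1.im ^ 2 + z2.im ^ 2) := by
    rw [Complex.im_ofReal_mul, Complex.im_ofReal_mul,
      show (l * z1.im) ^ 2 + (l * z2.im) ^ 2 = l ^ 2 * (z1.im ^ 2 + z2.im ^ 2) by ring,
      Real.sqrt_mul (sq_nonneg l), Real.sqrt_sq hl.le]
  rw [e1, e2] at h
  exact h

lemma gl_bd {l : ℝ} (hl : 0 < l) (p : ℝ × ℝ) : |gl l p| ≤ 1 / l ^ 4 := by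
  obtain ⟨x, y⟩ := p
  unfold gl
  dsimp only
  rw [abs_of_nonneg (by positivity)]
  rcases eq_or_ne (x ^ 2 + y ^ 2) 0 with h | h
  · have hx : x = 0 := by nlinarith [sq_nonneg x, sq_nonneg y]
    have hy : y = 0 := by nlinarith [sq_nonneg x, sq_nonneg y]
    subst hx; subst hy
    simp
    positivity
  · have hpos : 0 < x ^ 2 + y ^ 2 := lt_of_le_of_ne (by positivity) h.symm
    set R : ℝ := √(x ^ 2 + y ^ 2) with hR
    have hRpos : 0 < R := Real.sqrt_pos.2 hpos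
    have hR2 : R ^ 2 = x ^ 2 + y ^ 2 := Real.sq_sqrt hpos.le
    have hs : (Real.sinc (l * R)) ^ 4 ≤ 1 / (l * R) ^ 4 := by
      have hlR := mul_pos hl hRpos
      rw [Real.sinc_of_ne_zero hlR.ne', div_pow]
      apply div_le_div_of_nonneg_right _ (by positivity)
      have h1 := Real.sin_sq_le_one (l * R)
      have h2 := sq_nonneg (Real.sin (l * R))
      nlinarith
    have h4 : (x ^ 2 - y ^ 2) ^ 2 ≤ R ^ 4 := by
      rw [show R ^ 4 = (R ^ 2) ^ 2 by ring, hR2]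
      nlinarith [mul_nonneg (sq_nonneg x) (sq_nonneg y)]
    calc (x ^ 2 - y ^ 2) ^ 2 * (Real.sinc (l * R)) ^ 4 ≤ R ^ 4 * (1 / (l * R) ^ 4) := by gcongr
      _ = 1 / l ^ 4 := by rw [mul_pow]; field_simp

lemma norm_sq_le (z1 z2 : ℂ) {t : ℝ} (h1 : ‖z1‖ ≤ t) (h2 : ‖z2‖ ≤ t) :
    ‖(z1 ^ 2 - z2 ^ 2) ^ 2‖ ≤ 4 * t ^ 4 := by
  rw [norm_pow]
  have h3 : ‖z1 ^ 2 - z2 ^ 2‖ ≤ 2 * t ^ 2 := by
    refine (norm_sub_le _ _).trans ?_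
    rw [norm_pow, norm_pow]
    have e1 := pow_le_pow_left₀ (norm_nonneg _) h1 2
    have e2 := pow_le_pow_left₀ (norm_nonneg _) h2 2
    linarith
  calc ‖z1 ^ 2 - z2 ^ 2‖ ^ 2 ≤ (2 * t ^ 2) ^ 2 := pow_le_pow_left₀ (norm_nonneg _) h3 2
    _ = 4 * t ^ 4 := by ring

theorem infb : S_INFB := by
  intro l hl hl4
  obtain ⟨K, hK, hb⟩ := gs_growth
  refine ⟨⟨1 / l ^ 4, fun p => ?_⟩,
    fun z => (z.1 ^ 2 - z.2 ^ 2) ^ 2 * (gs l (z.1 ^ 2 + z.2 ^ 2)) ^ 4, ⟨?_, ?_⟩, ?_⟩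
  · change ‖((gl l p : ℝ) : ℂ)‖ ≤ _
    rw [Complex.norm_real, Real.norm_eq_abs]
    exact gl_bd hl p
  · intro z hz
    exact (((analyticAt_fst.pow 2).sub (analyticAt_snd.pow 2)).pow 2).mul
      ((an_comp (gs_diff l) z hz).pow 4)
  · intro ε hε
    refine ⟨4 * (2 / (ε / 2) ^ 2) ^ 2 * K ^ 4, fun z => ?_⟩
    rw [norm_mul, norm_pow (gs l _) 4]
    have h1 := norm_sq_le z.1 z.2 (norm_fst_le z) (norm_snd_le z)
    have h2 := sq_le_exp (half_pos hε) (norm_nonneg z)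
    have h3 : ‖z‖ ^ 4 ≤ (2 / (ε / 2) ^ 2) ^ 2 * Real.exp (ε * ‖z‖) := by
      calc ‖z‖ ^ 4 = (‖z‖ ^ 2) ^ 2 := by ring
        _ ≤ (2 / (ε / 2) ^ 2 * Real.exp (ε / 2 * ‖z‖)) ^ 2 :=
            pow_le_pow_left₀ (by positivity) h2 2
        _ = (2 / (ε / 2) ^ 2) ^ 2 * Real.exp (ε * ‖z‖) := by
            rw [mul_pow, ← Real.exp_nat_mul]
            congr 2
            push_cast
            ring
    have h4 := pow_le_pow_left₀ (norm_nonneg _) (hb l hl z.1 z.2) 4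
    have h5 : (K * Real.exp (l * √(z.1.im ^ 2 + z.2.im ^ 2))) ^ 4 ≤
        K ^ 4 * Real.exp √(z.1.im ^ 2 + z.2.im ^ 2) := by
      rw [mul_pow, ← Real.exp_nat_mul]
      apply mul_le_mul_of_nonneg_left _ (by positivity)
      apply Real.exp_le_exp.2
      push_cast
      have := Real.sqrt_nonneg (z.1.im ^ 2 + z.2.im ^ 2)
      nlinarith
    calc ‖(z.1 ^ 2 - z.2 ^ 2) ^ 2‖ * ‖gs l (z.1 ^ 2 + z.2 ^ 2)‖ ^ 4
        ≤ (4 * ‖z‖ ^ 4) * (K ^ 4 * Real.exp √(z.1.im ^ 2 + z.2.im ^ 2)) := by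
          apply mul_le_mul h1 (h4.trans h5) (by positivity) (by positivity)
      _ ≤ (4 * ((2 / (ε / 2) ^ 2) ^ 2 * Real.exp (ε * ‖z‖))) *
          (K ^ 4 * Real.exp √(z.1.im ^ 2 + z.2.im ^ 2)) := by gcongr
      _ = _ := by rw [Real.exp_add]; ring
  · intro x y
    change ((gl l (x, y) : ℝ) : ℂ) =
      ((x : ℂ) ^ 2 - (y : ℂ) ^ 2) ^ 2 * (gs l ((x : ℂ) ^ 2 + (y : ℂ) ^ 2)) ^ 4
    rw [gs_real]
    unfold gl
    push_cast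
    ring

end Pool.Agent.T9h41.EX
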