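import Pool.Agent.T9h72.EX.Spec

set_option autoImplicit false

open Complex Filter Topology Metric Set
open Pool.Agent.Helper797.Bs Pool.Agent.K7.H38.MD

namespace Pool.Agent.T9h41.EX

open Pool.Agent.T9h72.EX

lemma sinc_pow_le {r : ℝ} (hr : 0 < r) : (Real.sinc r) ^ 4 ≤ 1 / r ^ 4 := by
  rw [Real.sinc_of_ne_zero hr.ne', div_pow]
  apply div_le_div_of_nonneg_right _ (by positivity)
  have h1 := Real.sin_sq_le_one r
  have h2 := sq_nonneg (Real.sin r)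
  nlinarith

theorem infn : S_INFN := by
  intro l c hl hc p
  obtain ⟨x, y⟩ := p
  unfold fs
  rw [← Complex.ofReal_add, Complex.norm_real, Real.norm_eq_abs]
  dsimp only
  unfold gl
  dsimp only
  rcases eq_or_ne (x ^ 2 + y ^ 2) 0 with h | h
  · have hx : x = 0 := by nlinarith [sq_nonneg x, sq_nonneg y]
    have hy : y = 0 := by nlinarith [sq_nonneg x, sq_nonneg y]
    subst hx; subst hy
    simp
  · have hpos : 0 < x ^ 2 + y ^ 2 := lt_of_le_of_ne (by positivity) h.symm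
    set R : ℝ := √(x ^ 2 + y ^ 2) with hR
    have hRpos : 0 < R := Real.sqrt_pos.2 hpos
    have hR2 : R ^ 2 = x ^ 2 + y ^ 2 := Real.sq_sqrt hpos.le
    have hs := sinc_pow_le (mul_pos hl hRpos)
    set u : ℝ := 2 * x * y / (x ^ 2 + y ^ 2) with hu
    have hu1 : 1 - u ^ 2 = (x ^ 2 - y ^ 2) ^ 2 / (x ^ 2 + y ^ 2) ^ 2 := by
      rw [hu]; field_simp; ring
    have hu0 : 0 ≤ 1 - u ^ 2 := by rw [hu1]; positivity
    have hC := Real.abs_cos_le_one √(x ^ 2 + y ^ 2 + a ^ 2)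
    have hg0 : 0 ≤ (x ^ 2 - y ^ 2) ^ 2 * (Real.sinc (l * R)) ^ 4 := by positivity
    have hg : (x ^ 2 - y ^ 2) ^ 2 * (Real.sinc (l * R)) ^ 4 ≤ (1 - u ^ 2) / l ^ 4 := by
      calc (x ^ 2 - y ^ 2) ^ 2 * (Real.sinc (l * R)) ^ 4
          ≤ (x ^ 2 - y ^ 2) ^ 2 * (1 / (l * R) ^ 4) := by gcongr
        _ = (1 - u ^ 2) / l ^ 4 := by
            rw [hu1, mul_pow, show R ^ 4 = (R ^ 2) ^ 2 by ring, hR2]
            field_simp
    have h3 : |c| * ((x ^ 2 - y ^ 2) ^ 2 * (Real.sinc (l * R)) ^ 4) ≤ (1 - u ^ 2) / 2 := by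
      calc |c| * ((x ^ 2 - y ^ 2) ^ 2 * (Real.sinc (l * R)) ^ 4)
          ≤ (l ^ 4 / 2) * ((1 - u ^ 2) / l ^ 4) := by gcongr
        _ = (1 - u ^ 2) / 2 := by field_simp
    refine (abs_add_le _ _).trans ?_
    rw [abs_neg, abs_mul, abs_mul, abs_of_nonneg hg0]
    have h4 : |u| * |Real.cos √(x ^ 2 + y ^ 2 + a ^ 2)| ≤ |u| := by
      have := mul_le_mul_of_nonneg_left hC (abs_nonneg u)
      linarith
    have h5 : u ^ 2 = |u| ^ 2 := (sq_abs u).symm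
    nlinarith [sq_nonneg (1 - |u|)]

end Pool.Agent.T9h41.EX
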