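import Pool.Agent.T9h72.EX.Spec

set_option autoImplicit false

open Complex Filter Topology Metric Set
open Pool.Agent.Helper797.Bs Pool.Agent.K7.H38.MD

namespace Pool.Agent.T9h41.EX

open Pool.Agent.T9h72.EX

lemma half_sq (s : ℝ) : (s / √2) ^ 2 = s ^ 2 / 2 := by
  rw [div_pow, Real.sq_sqrt (by norm_num)]

lemma key (s : ℝ) : (2 * (s / √2) * (s / √2) / ((s / √2) ^ 2 + (s / √2) ^ 2) *
    Real.cos √((s / √2) ^ 2 + (s / √2) ^ 2 + a ^ 2)) =
    Real.cos √(s ^ 2 + (Real.pi / 2) ^ 2) := by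
  have e1 : 2 * (s / √2) * (s / √2) = s ^ 2 := by
    have := half_sq s
    nlinarith
  have e2 : (s / √2) ^ 2 + (s / √2) ^ 2 = s ^ 2 := by
    rw [half_sq]; ring
  rw [e1, e2]
  unfold a
  rcases eq_or_ne s 0 with rfl | hs
  · have : √((0:ℝ) ^ 2 + (Real.pi / 2) ^ 2) = Real.pi / 2 := by
      rw [zero_pow two_ne_zero, zero_add, Real.sqrt_sq (by positivity)]
    rw [this, Real.cos_pi_div_two]
    simp
  · rw [div_self (by positivity), one_mul]

theorem infr : S_INFR := by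
  intro s
  refine ⟨fun l => ⟨?_, ?_⟩, ?_, ?_⟩
  · unfold gl; simp
  · unfold gl; simp
  · unfold fs ext1
    dsimp only
    rw [key]
    simp
  · unfold fs ext1
    dsimp only
    have e : 2 * (s / √2) * (-(s / √2)) / ((s / √2) ^ 2 + (-(s / √2)) ^ 2) *
        Real.cos √((s / √2) ^ 2 + (-(s / √2)) ^ 2 + a ^ 2) =
        -(Real.cos √(s ^ 2 + (Real.pi / 2) ^ 2)) := by
      rw [← key s, neg_sq]
      ring
    rw [e]
    simp

end Pool.Agent.T9h41.EX
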